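import Mathlib
import Pool.Agent.H44.Sing.Final

/-!
# Singular matrix tuples are not a null cone

For all `n, m ≥ 3` and every group `G` acting by linear transformations on the space of
`m`-tuples of complex `n × n` matrices, the (Euclidean) null cone of `G` is different from the
set of singular matrix tuples.  In particular this holds for every linear algebraic group
acting algebraically, which answers the question in the negative.
-/

open Matrix Topology Set

namespace Pool.Agent.Results.MP_296aa8_al.NotNullCone

/-- The set of singular matrix tuples: all linear combinations of the members are singular,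
that is, the common zero locus of the polynomials `det (c₁ X₁ + ... + c_m X_m)`. -/
def SING (n m : ℕ) : Set (Fin m → Matrix (Fin n) (Fin n) ℂ) :=
  {X | ∀ c : Fin m → ℂ, (∑ i, c i • X i).det = 0}

/-- The analytic null cone of a group `G` acting linearly on the space of `m`-tuples of
complex `n × n` matrices: all vectors whose orbit has `0` in its (Euclidean) closure. -/
def nullCone {n m : ℕ} {G : Type*} [Group G]
    (ρ : Representation ℂ G (Fin m → Matrix (Fin n) (Fin n) ℂ)) :
    Set (Fin m → Matrix (Fin n) (Fin n) ℂ) :=
  {v | (0 : Fin m → Matrix (Fin n) (Fin n) ℂ) ∈ closure (Set.range fun g : G => ρ g v)}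

/-- Consistency check: a tuple is in `SING n m` iff the generic linear combination of its
members with indeterminate coefficients has zero determinant. -/
theorem mem_SING_iff_generic {n m : ℕ} (X : Fin m → Matrix (Fin n) (Fin n) ℂ) :
    X ∈ SING n m ↔
      (∑ i, (MvPolynomial.X i : MvPolynomial (Fin m) ℂ) •
        (X i).map (MvPolynomial.C (σ := Fin m))).det = 0 := by
  have key : ∀ c : Fin m → ℂ, MvPolynomial.eval c
      (∑ i, (MvPolynomial.X i : MvPolynomial (Fin m) ℂ) •
        (X i).map (MvPolynomial.C (σ := Fin m))).det =
      (∑ i, c i • X i).det := by
    intro c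
    rw [RingHom.map_det]
    congr 1
    ext j k
    simp [Matrix.sum_apply, Matrix.smul_apply]
  constructor
  · intro h
    apply MvPolynomial.funext
    intro c
    rw [key, map_zero]
    exact h c
  · intro h c
    rw [← key, h, map_zero]

/-- **Main theorem.**  Let `n, m ≥ 3`.  For every group `G` and every linear action of `G` on
the space of `m`-tuples of complex `n × n` matrices, the analytic null cone of `G` is not the
set of singular matrix tuples. -/
theorem result {n m : ℕ} (hn : 3 ≤ n) (hm : 3 ≤ m) {G : Type*} [Group G]
    (ρ : Representation ℂ G (Fin m → Matrix (Fin n) (Fin n) ℂ)) :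
    nullCone ρ ≠ SING n m :=
  Pool.Agent.H44.Sing.not_nullCone hn hm ρ

end Pool.Agent.Results.MP_296aa8_al.NotNullCone
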